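import Pool.Agent.H49.PQ.Defs

/-! Modules `ADD`, `END`, `INI`, `CHK`, `ALL` of the board `pq_modules`. -/

namespace Pool.Agent.H33.PQ

open Pool.Agent.H49.PQ

theorem pf_ADD : T_ADD := by
  intro P a b x hG hx hc
  obtain ⟨hne, h2, hcop, hprod, hsum⟩ := hG
  have hxc : ∀ y ∈ P, Nat.Coprime x y := by
    intro y hy
    exact Nat.Coprime.coprime_dvd_right (hprod ▸ Finset.dvd_prod_of_mem (fun x => x) hy) hc
  have hxP : x ∉ P := by
    intro h
    have := hxc x h
    rw [Nat.coprime_self] at this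
    omega
  have hb : 0 < b := by
    rw [← hprod]
    exact Finset.prod_pos (fun y hy => by have := h2 y hy; omega)
  refine ⟨insert x P, ⟨Finset.insert_nonempty _ _, ?_, ?_, ?_, ?_⟩,
    Finset.card_insert_of_notMem hxP⟩
  · intro y hy
    rcases Finset.mem_insert.mp hy with rfl | hy
    · exact hx
    · exact h2 y hy
  · intro y hy z hz hyz
    rcases Finset.mem_insert.mp hy with hy' | hy'
    · rcases Finset.mem_insert.mp hz with hz' | hz'
      · exact absurd (hy'.trans hz'.symm) hyz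
      · rw [hy']
        exact hxc z hz'
    · rcases Finset.mem_insert.mp hz with hz' | hz'
      · rw [hz']
        exact (hxc y hy').symm
      · exact hcop y hy' z hz' hyz
  · rw [Finset.prod_insert hxP, hprod, mul_comm]
  · rw [Finset.sum_insert hxP, hsum]
    have hb' : (b : ℚ) ≠ 0 := by exact_mod_cast hb.ne'
    have hx' : (x : ℚ) ≠ 0 := by
      have : x ≠ 0 := by omega
      exact_mod_cast this
    push_cast
    field_simp
    ring

/-- `Good` sets have positive product. -/
theorem good_pos {P : Finset ℕ} {a b : ℕ} (h : Good P a b) : 0 < b := by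
  rw [← h.2.2.2.1]
  exact Finset.prod_pos (fun y hy => by have := h.2.1 y hy; omega)

theorem good_pos' {P : Finset ℕ} {a b : ℕ} (h : Good P a b) : 0 < a := by
  have hb := good_pos h
  have h1 : (0 : ℚ) < ∑ x ∈ P, (1 : ℚ) / x :=
    Finset.sum_pos (fun y hy => by
      have := h.2.1 y hy
      have : (0 : ℚ) < y := by
        have : 0 < y := by omega
        exact_mod_cast this
      positivity) h.1
  rw [h.2.2.2.2] at h1
  by_contra h0
  have : a = 0 := by omega
  subst this
  simp at h1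

/-- the numerator and the product of a `Good` set are coprime -/
theorem good_coprime {Q : Finset ℕ} {c d : ℕ} (h : Good Q c d) : Nat.Coprime c d := by
  have hd := good_pos h
  obtain ⟨hne, h2, hcop, hprod, hsum⟩ := h
  -- `c = ∑ q, d / q`
  have hc : c = ∑ q ∈ Q, ∏ y ∈ Q.erase q, y := by
    have h1 : (c : ℚ) = ∑ q ∈ Q, ((∏ y ∈ Q.erase q, y : ℕ) : ℚ) := by
      have h3 : (c : ℚ) = d * ∑ x ∈ Q, (1 : ℚ) / x := by
        rw [hsum]
        have : (d : ℚ) ≠ 0 := by exact_mod_cast hd.ne'
        field_simp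
      rw [h3, Finset.mul_sum]
      refine Finset.sum_congr rfl (fun q hq => ?_)
      have hq2 := h2 q hq
      have hq' : (q : ℚ) ≠ 0 := by
        have : q ≠ 0 := by omega
        exact_mod_cast this
      have h4 : q * (∏ y ∈ Q.erase q, y) = d := by
        rw [← hprod]
        exact Finset.mul_prod_erase Q (fun y => y) hq
      rw [← h4]
      push_cast
      field_simp
    exact_mod_cast h1
  rw [Nat.coprime_iff_gcd_eq_one]
  by_contra hne1
  obtain ⟨p, hp, hpc⟩ := Nat.exists_prime_and_dvd hne1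
  have hpc1 : p ∣ c := hpc.trans (Nat.gcd_dvd_left _ _)
  have hpd : p ∣ d := hpc.trans (Nat.gcd_dvd_right _ _)
  rw [← hprod] at hpd
  obtain ⟨q, hq, hpq⟩ := (hp.prime.dvd_finsetProd_iff _).mp hpd
  rw [hc, ← Finset.add_sum_erase Q _ hq] at hpc1
  have h5 : p ∣ ∑ x ∈ Q.erase q, ∏ y ∈ Q.erase x, y := by
    refine Finset.dvd_sum (fun x hx => ?_)
    have hqx : q ∈ Q.erase x := Finset.mem_erase.mpr ⟨fun h => (Finset.mem_erase.mp hx).1 h.symm, hq⟩
    exact hpq.trans (Finset.dvd_prod_of_mem (fun x => x) hqx)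
  have h6 : p ∣ ∏ y ∈ Q.erase q, y := (Nat.dvd_add_left h5).mp hpc1
  obtain ⟨r, hr, hpr⟩ := (hp.prime.dvd_finsetProd_iff _).mp h6
  have hrq : r ≠ q := (Finset.mem_erase.mp hr).1
  have h7 := hcop r (Finset.mem_erase.mp hr).2 q hq hrq
  exact hp.one_lt.ne' (Nat.eq_one_of_dvd_coprimes h7 hpr hpq)

theorem good_coprime' {P : Finset ℕ} {a b : ℕ} (h : Good P a b) {p : ℕ} (hp : p.Prime)
    (ha : p ∣ a) (hb : p ∣ b) : False :=
  hp.one_lt.ne' (Nat.eq_one_of_dvd_coprimes (good_coprime h) ha hb)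

theorem pf_END : T_ADD → T_END := by
  intro hADD P Q a b c d k hP hQ hbd hkb hk heq hdiv h2k
  have hb := good_pos hP
  have ha := good_pos' hP
  have hd := good_pos hQ
  have hc := good_pos' hQ
  have hck : Nat.Coprime c k := by
    rw [Nat.coprime_iff_gcd_eq_one]
    by_contra hne1
    obtain ⟨p, hp, hpc⟩ := Nat.exists_prime_and_dvd hne1
    have h1 : p ∣ c := hpc.trans (Nat.gcd_dvd_left _ _)
    have h2 : p ∣ k := hpc.trans (Nat.gcd_dvd_right _ _)
    have h3 : p ∣ b * d := by
      rw [heq]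
      exact dvd_add (h1.mul_left a) h2
    rcases hp.dvd_mul.mp h3 with h4 | h4
    · exact hp.one_lt.ne' (Nat.eq_one_of_dvd_coprimes hkb h2 h4)
    · exact good_coprime' hQ hp h1 h4
  obtain ⟨x, hx⟩ := hdiv
  have hdiv2 : k ∣ b * b + a * d := by
    have h1 : c * (b * b + a * d) + k * d = b * (d * d + b * c) := by
      calc c * (b * b + a * d) + k * d = c * (b * b) + (a * c + k) * d := by ring
        _ = c * (b * b) + (b * d) * d := by rw [heq]
        _ = b * (d * d + b * c) := by ring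
    have h2 : k ∣ c * (b * b + a * d) + k * d := by
      rw [h1, hx]
      exact ⟨b * x, by ring⟩
    have h3 : k ∣ c * (b * b + a * d) := (Nat.dvd_add_left ⟨d, rfl⟩).mp h2
    exact hck.symm.dvd_of_dvd_mul_left h3
  obtain ⟨y, hy⟩ := hdiv2
  have hxb : Nat.Coprime x b := by
    rw [Nat.coprime_iff_gcd_eq_one]
    by_contra hne1
    obtain ⟨p, hp, hpc⟩ := Nat.exists_prime_and_dvd hne1
    have h1 : p ∣ x := hpc.trans (Nat.gcd_dvd_left _ _)
    have h2 : p ∣ b := hpc.trans (Nat.gcd_dvd_right _ _)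
    have h3 : p ∣ d * d + b * c := by
      rw [hx]
      exact h1.mul_left k
    have h4 : p ∣ d * d := (Nat.dvd_add_left (h2.mul_right c)).mp h3
    have h5 : p ∣ d := by
      rcases hp.dvd_mul.mp h4 with h | h <;> exact h
    exact hp.one_lt.ne' (Nat.eq_one_of_dvd_coprimes hbd h2 h5)
  have hyd : Nat.Coprime y d := by
    rw [Nat.coprime_iff_gcd_eq_one]
    by_contra hne1
    obtain ⟨p, hp, hpc⟩ := Nat.exists_prime_and_dvd hne1
    have h1 : p ∣ y := hpc.trans (Nat.gcd_dvd_left _ _)
    have h2 : p ∣ d := hpc.trans (Nat.gcd_dvd_right _ _)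
    have h3 : p ∣ b * b + a * d := by
      rw [hy]
      exact h1.mul_left k
    have h4 : p ∣ b * b := (Nat.dvd_add_left (h2.mul_left a)).mp h3
    have h5 : p ∣ b := by
      rcases hp.dvd_mul.mp h4 with h | h <;> exact h
    exact hp.one_lt.ne' (Nat.eq_one_of_dvd_coprimes hbd h5 h2)
  have hx2 : 2 ≤ x := by
    have h1 : 2 * k ≤ k * x := by
      rw [← hx]
      have : b * 1 ≤ b * c := Nat.mul_le_mul_left _ hc
      calc 2 * k ≤ b * 1 := by omega
        _ ≤ b * c := this
        _ ≤ d * d + b * c := Nat.le_add_left _ _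
    by_contra h
    have h3 : x ≤ 1 := by omega
    have h4 : k * x ≤ k * 1 := Nat.mul_le_mul_left _ h3
    omega
  have hy2 : 2 ≤ y := by
    have h1 : 2 * k ≤ k * y := by
      rw [← hy]
      have : b * 1 ≤ b * b := Nat.mul_le_mul_left _ hb
      calc 2 * k ≤ b * 1 := by omega
        _ ≤ b * b := this
        _ ≤ b * b + a * d := Nat.le_add_right _ _
    by_contra h
    have h3 : y ≤ 1 := by omega
    have h4 : k * y ≤ k * 1 := Nat.mul_le_mul_left _ h3
    omega
  have e1 : a * x + b = d * y := by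
    have : k * (a * x + b) = k * (d * y) := by
      calc k * (a * x + b) = a * (k * x) + k * b := by ring
        _ = a * (d * d + b * c) + k * b := by rw [hx]
        _ = a * (d * d) + b * (a * c + k) := by ring
        _ = a * (d * d) + b * (b * d) := by rw [heq]
        _ = d * (b * b + a * d) := by ring
        _ = d * (k * y) := by rw [hy]
        _ = k * (d * y) := by ring
    exact Nat.eq_of_mul_eq_mul_left hk this
  have e2 : c * y + d = b * x := by
    have : k * (c * y + d) = k * (b * x) := by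
      calc k * (c * y + d) = c * (k * y) + k * d := by ring
        _ = c * (b * b + a * d) + k * d := by rw [hy]
        _ = b * (b * c) + (a * c + k) * d := by ring
        _ = b * (b * c) + (b * d) * d := by rw [heq]
        _ = b * (d * d + b * c) := by ring
        _ = b * (k * x) := by rw [hx]
        _ = k * (b * x) := by ring
    exact Nat.eq_of_mul_eq_mul_left hk this
  obtain ⟨P', hP', hPc⟩ := hADD P a b x hP hx2 hxb
  obtain ⟨Q', hQ', hQc⟩ := hADD Q c d y hQ hy2 hyd
  have hPn := Finset.card_pos.mpr hP.1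
  have hQn := Finset.card_pos.mpr hQ.1
  refine ⟨P', Q', by omega, by omega, hP'.2.1, hQ'.2.1, hP'.2.2.1, hQ'.2.2.1, ?_⟩
  rw [hP'.2.2.2.2, hQ'.2.2.2.2, e1, e2]
  have hx0 : ((b * x : ℕ) : ℚ) ≠ 0 := by
    have : b * x ≠ 0 := Nat.mul_ne_zero hb.ne' (by omega)
    exact_mod_cast this
  have hy0 : ((d * y : ℕ) : ℚ) ≠ 0 := by
    have : d * y ≠ 0 := Nat.mul_ne_zero hd.ne' (by omega)
    exact_mod_cast this
  field_simp

theorem pf_INI : T_INI := by
  intro l hl h2 hpw
  have hnd : l.Nodup := by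
    refine List.Pairwise.imp_of_mem ?_ hpw
    intro x y hx hy hxy h
    subst h
    rw [Nat.coprime_self] at hxy
    have := h2 x hx
    omega
  have hprod : ∏ x ∈ l.toFinset, x = l.prod := by
    have := List.prod_toFinset (fun x : ℕ => x) hnd
    simpa using this
  have hsum : ∑ x ∈ l.toFinset, (1 : ℚ) / x = (l.map (fun x : ℕ => (1 : ℚ) / x)).sum :=
    List.sum_toFinset (fun x : ℕ => (1 : ℚ) / x) hnd
  refine ⟨?_, ?_, ?_, hprod, ?_⟩
  · obtain ⟨x, hx⟩ := List.exists_mem_of_ne_nil l hl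
    exact ⟨x, List.mem_toFinset.mpr hx⟩
  · intro x hx
    exact h2 x (List.mem_toFinset.mp hx)
  · intro x hx y hy hxy
    have : Std.Symm Nat.Coprime := ⟨fun _ _ h => Nat.Coprime.symm h⟩
    exact hpw.forall (List.mem_toFinset.mp hx) (List.mem_toFinset.mp hy) hxy
  · rw [hsum]
    clear hprod hsum hnd hpw hl
    induction l with
    | nil => simp [num]
    | cons x l ih =>
      have ih' := ih (fun y hy => h2 y (List.mem_cons_of_mem _ hy))
      have hx : (x : ℚ) ≠ 0 := by
        have := h2 x List.mem_cons_self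
        have : x ≠ 0 := by omega
        exact_mod_cast this
      have hlp : (l.prod : ℚ) ≠ 0 := by
        have : l.prod ≠ 0 := by
          intro h0
          have := h2 0 (List.mem_cons_of_mem _ (List.prod_eq_zero_iff.mp h0))
          omega
        exact_mod_cast this
      rw [List.map_cons, List.sum_cons, ih', List.prod_cons, num]
      push_cast
      have : ((l.prod : ℕ) : ℚ) ≠ 0 := by exact_mod_cast hlp
      push_cast at this
      field_simp

theorem gml (m n : ℕ) : Nat.gcd (m % n) n = Nat.gcd m n :=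
  (Nat.gcd_rec n m).symm.trans (Nat.gcd_comm n m)

/-- soundness of the checker, without the coprimality hypothesis -/
theorem chk_sound (hADD : T_ADD) (hEND : T_END) (Q : Finset ℕ) (c d lo lo' : ℕ) (hQ : Good Q c d)
    (ks : List ℕ) : ∀ (β M k : ℕ) (P : Finset ℕ) (a b : ℕ), Good P a b → Nat.Coprime b d →
    0 < k → b * d = a * c + k → lo ≤ b * c → lo' ≤ b → 0 < M → b % M = β % M →
    chk c d lo lo' ks β M k = true → Sol := by
  induction ks with
  | nil =>
    intro β M k P a b hP hbd hk heq _ hlo' hM hβ hchk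
    simp only [chk, Bool.and_eq_true, beq_iff_eq, Nat.ble_eq] at hchk
    obtain ⟨⟨h1, h2⟩, h3⟩ := hchk
    have hkM : k ∣ M := Nat.dvd_of_mod_eq_zero h1
    have hmod : b ≡ β [MOD k] := Nat.ModEq.of_dvd hkM hβ
    have hdiv : k ∣ d * d + b * c := by
      have h4 : d * d + b * c ≡ d * d + β * c [MOD k] :=
        Nat.ModEq.add_left _ (Nat.ModEq.mul_right c hmod)
      have h5 : (d * d + b * c) % k = (d * d + β * c) % k := h4
      exact Nat.dvd_of_mod_eq_zero (h5.trans h2)
    have hkb : Nat.Coprime k b := by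
      rw [Nat.coprime_iff_gcd_eq_one]
      by_contra hne1
      obtain ⟨p, hp, hpc⟩ := Nat.exists_prime_and_dvd hne1
      have g1 : p ∣ k := hpc.trans (Nat.gcd_dvd_left _ _)
      have g2 : p ∣ b := hpc.trans (Nat.gcd_dvd_right _ _)
      have g3 : p ∣ d * d + b * c := g1.trans hdiv
      have g4 : p ∣ d * d := (Nat.dvd_add_left (g2.mul_right c)).mp g3
      have g5 : p ∣ d := by
        rcases hp.dvd_mul.mp g4 with h | h <;> exact h
      exact hp.one_lt.ne' (Nat.eq_one_of_dvd_coprimes hbd g2 g5)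
    exact hEND P Q a b c d k hP hQ hbd hkb hk heq hdiv (h3.trans hlo')
  | cons k' ks ih =>
    intro β M k P a b hP hbd hk heq hlo hlo' hM hβ hchk
    simp only [chk, Bool.and_eq_true, beq_iff_eq, Nat.ble_eq] at hchk
    obtain ⟨⟨⟨⟨⟨⟨⟨⟨h1, h2⟩, h3⟩, h4⟩, h5⟩, h6⟩, h7⟩, h8⟩, h9⟩ := hchk
    have hkM : k ∣ M := Nat.dvd_of_mod_eq_zero h1
    obtain ⟨M', rfl⟩ := hkM
    rw [Nat.mul_div_cancel_left _ hk] at h2 h3 h6 h9
    have hM' : 0 < M' := Nat.pos_of_mul_pos_left hM
    have hk'M : k' ∣ M' := Nat.dvd_of_mod_eq_zero h2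
    have hdM : d ∣ M' := Nat.dvd_of_mod_eq_zero h3
    obtain ⟨x0, hx0⟩ : k ∣ β * c + k' := Nat.dvd_of_mod_eq_zero h4
    have hmodM : b ≡ β [MOD (k * M')] := hβ
    have hmodk : b ≡ β [MOD k] := Nat.ModEq.of_dvd ⟨M', rfl⟩ hmodM
    have hmodM' : b ≡ β [MOD M'] := Nat.ModEq.of_dvd ⟨k, mul_comm _ _⟩ hmodM
    have hmodk' : b ≡ β [MOD k'] := Nat.ModEq.of_dvd hk'M hmodM'
    obtain ⟨x, hx⟩ : k ∣ b * c + k' := by
      have g : b * c + k' ≡ β * c + k' [MOD k] :=
        Nat.ModEq.add_right _ (Nat.ModEq.mul_right c hmodk)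
      have g' : (b * c + k') % k = (β * c + k') % k := g
      exact Nat.dvd_of_mod_eq_zero (g'.trans (Nat.mod_eq_zero_of_dvd ⟨x0, hx0⟩))
    rw [hx0, Nat.mul_div_cancel_left _ hk] at h6 h9
    have hxx0 : x ≡ x0 [MOD M'] := by
      have g : k * x ≡ k * x0 [MOD (k * M')] := by
        rw [← hx, ← hx0]
        exact Nat.ModEq.add_right _ (Nat.ModEq.mul_right c hmodM)
      exact Nat.ModEq.mul_left_cancel' hk.ne' g
    have hbk' : Nat.Coprime b k' := by
      rw [Nat.coprime_iff_gcd_eq_one, ← gml b k']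
      have : b % k' = β % k' := hmodk'
      rw [this]
      exact h5
    have hxd : Nat.Coprime x d := by
      have g : x % d = (x0 % M') % d := by
        rw [Nat.mod_mod_of_dvd _ hdM]
        exact Nat.ModEq.of_dvd hdM hxx0
      rw [Nat.coprime_iff_gcd_eq_one, ← gml x d, g]
      exact h6
    have hxb : Nat.Coprime x b := by
      rw [Nat.coprime_iff_gcd_eq_one]
      by_contra hne1
      obtain ⟨p, hp, hpc⟩ := Nat.exists_prime_and_dvd hne1
      have g1 : p ∣ x := hpc.trans (Nat.gcd_dvd_left _ _)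
      have g2 : p ∣ b := hpc.trans (Nat.gcd_dvd_right _ _)
      have g3 : p ∣ b * c + k' := by
        rw [hx]
        exact g1.mul_left k
      have g4 : p ∣ k' := (Nat.dvd_add_right (g2.mul_right c)).mp g3
      exact hp.one_lt.ne' (Nat.eq_one_of_dvd_coprimes hbk' g2 g4)
    have hx2 : 2 ≤ x := by
      have g1 : 2 * k ≤ k * x := by
        rw [← hx]
        omega
      by_contra h
      have g3 : x ≤ 1 := by omega
      have g4 : k * x ≤ k * 1 := Nat.mul_le_mul_left _ g3
      omega
    obtain ⟨P', hP', _⟩ := hADD P a b x hP hx2 hxb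
    have hbx : b ≤ b * x := Nat.le_mul_of_pos_right b (by omega)
    refine ih (β * (x0 % M') % M') M' k' P' (a * x + b) (b * x) hP' ?_ h7 ?_ ?_ (hlo'.trans hbx)
      hM' ?_ h9
    · exact Nat.Coprime.mul_left hbd hxd
    · calc b * x * d = (b * d) * x := by ring
        _ = (a * c + k) * x := by rw [heq]
        _ = a * x * c + k * x := by ring
        _ = a * x * c + (b * c + k') := by rw [hx]
        _ = (a * x + b) * c + k' := by ring
    · exact hlo.trans (Nat.mul_le_mul_right c hbx)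
    · have g1 : b * x ≡ β * (x0 % M') [MOD M'] :=
        Nat.ModEq.mul hmodM' (hxx0.trans (Nat.mod_modEq x0 M').symm)
      exact g1.trans (Nat.mod_modEq _ M').symm

theorem pf_CHK : T_ADD → T_END → T_CHK := by
  intro hADD hEND Q c d lo lo' hQ ks β M k P a b hP hbd _ hk heq hlo hlo' hM hβ hchk
  exact chk_sound hADD hEND Q c d lo lo' hQ ks β M k P a b hP hbd hk heq hlo hlo' hM hβ hchk

theorem pf_ALL : T_INI → T_CHK → T_ALL := by
  intro hINI hCHK lp lq ks k hlp hlq h2 hpw heq hk hgcd hks hchk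
  rw [List.pairwise_append] at hpw
  obtain ⟨hp, hq, hpq⟩ := hpw
  have hP := hINI lp hlp (fun x hx => h2 x (List.mem_append_left _ hx)) hp
  have hQ := hINI lq hlq (fun x hx => h2 x (List.mem_append_right _ hx)) hq
  have hd := good_pos hQ
  have hcop : Nat.Coprime lp.prod lq.prod := by
    rw [Nat.coprime_list_prod_left_iff]
    intro n hn
    rw [Nat.coprime_list_prod_right_iff]
    intro m hm
    exact hpq n hn m hm
  have hkb : Nat.Coprime k lp.prod := by
    rw [Nat.coprime_iff_gcd_eq_one, ← gml k lp.prod]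
    exact hgcd
  have hksp : 0 < ks.prod := List.prod_pos (fun y hy => hks y hy)
  have hM : 0 < k * ks.prod * lq.prod := Nat.mul_pos (Nat.mul_pos hk hksp) hd
  exact hCHK lq.toFinset (num lq) lq.prod (lp.prod * num lq) lp.prod hQ ks
    (lp.prod % (k * ks.prod * lq.prod)) (k * ks.prod * lq.prod) k lp.toFinset (num lp) lp.prod hP
    hcop hkb hk heq le_rfl le_rfl hM (Nat.mod_mod _ _).symm hchk

end Pool.Agent.H33.PQ
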